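import Pool.Agent.Helper61.P3.St4

/-!
# Project P3 (MP_cb927e_an): module TYP, types
-/

set_option autoImplicit false

open MeasureTheory Set Filter Topology
open scoped ENNReal RealInnerProductSpace

namespace Pool.Agent.Helper67.P3

open Pool.Agent.Helper61.P3 Pool.Agent.Helper20.RG Pool.Agent.Helper20.EQ
open Pool.Agent.Helper68.LM (Pl BB Bd Av HL ft fm DQ)
open Pool.Agent.Helper68.EP (elt GapP)

/-- the ratio of the geometric series -/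
noncomputable def xq : ℝ := (2 : ℝ) ^ (-(1 / 100) : ℝ)

lemma xq_pos : 0 < xq := Real.rpow_pos_of_pos (by norm_num) _

lemma xq_le : xq ≤ 147 / 148 := by
  have h1 : xq ^ 100 = 1 / 2 := by
    unfold xq
    rw [← Real.rpow_mul_natCast (by norm_num)]
    have : (-(1 / 100) : ℝ) * ((100 : ℕ) : ℝ) = -1 := by norm_num
    rw [this, Real.rpow_neg_one]
    norm_num
  have h2 : (1 : ℝ) / 2 ≤ (147 / 148) ^ 100 := by norm_num
  rw [← h1] at h2
  exact le_of_pow_le_pow_left₀ (by norm_num) (by norm_num) h2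

lemma xq_lt : xq < 1 := xq_le.trans_lt (by norm_num)

lemma tsum_geo {x : ℝ} (h0 : 0 ≤ x) (h1 : x < 1) :
    ∑' n : ℕ, ENNReal.ofReal (x ^ n) = ENNReal.ofReal ((1 - x)⁻¹) := by
  rw [← tsum_geometric_of_lt_one h0 h1,
    ENNReal.ofReal_tsum_of_nonneg (fun n => pow_nonneg h0 n) (summable_geometric_of_lt_one h0 h1)]

lemma inv_le : (1 - xq)⁻¹ ≤ 148 := by
  have h := xq_le
  rw [inv_le_comm₀ (by linarith) (by norm_num)]
  linarith

/-- the number of elements of a set of hits -/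
lemma ncard_range (N : ℕ) (P : ℕ → Prop) [DecidablePred P] :
    ({j : ℕ | j < N ∧ P j}.ncard : ℝ) = ((Finset.range N).filter P).card := by
  have e : {j : ℕ | j < N ∧ P j} = (((Finset.range N).filter P : Finset ℕ) : Set ℕ) := by
    ext j
    simp
  rw [e, Set.ncard_coe_finset]

/-- decomposition of a number in `[0,1]` -/
lemma le_tsum_levels {z : ℝ} (hz : |z| ≤ 1) :
    ‖z‖ₑ ≤ ∑' ρ : ℕ, (if (2 : ℝ) ^ (-((ρ : ℤ) + 1)) ≤ |z| then
      ENNReal.ofReal ((2 : ℝ) ^ (-(ρ : ℤ))) else 0) := by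
  by_cases h0 : z = 0
  · rw [h0]; simp
  · have hpos : 0 < |z| := abs_pos.mpr h0
    obtain ⟨n, h1, h2⟩ := exists_nat_pow_near (x := |z|⁻¹) (y := 2)
      ((one_le_inv₀ hpos).mpr hz) (by norm_num)
    have h3 : |z| ≤ (2 : ℝ) ^ (-(n : ℤ)) := by
      rw [zpow_neg, zpow_natCast]
      rw [← inv_inv |z|]
      exact inv_anti₀ (by positivity) h1
    have h4 : (2 : ℝ) ^ (-((n : ℤ) + 1)) ≤ |z| := by
      rw [zpow_neg]
      have e : (2 : ℝ) ^ ((n : ℤ) + 1) = 2 ^ (n + 1) := by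
        rw [show ((n : ℤ) + 1) = ((n + 1 : ℕ) : ℤ) by push_cast; ring, zpow_natCast]
      rw [e, ← inv_inv |z|]
      exact inv_anti₀ (by positivity) h2.le
    refine le_trans ?_ (ENNReal.le_tsum n)
    rw [if_pos h4, Real.enorm_eq_ofReal_abs]
    exact ENNReal.ofReal_le_ofReal h3

/-- the identity of the exponents -/
lemma num_id (V : ℝ) (u n ρ : ℕ) : (2 : ℝ) ^ n * ((2 : ℝ) ^ (-(ρ : ℤ)) * mt V u n ρ) =
    V / 22000 * 2 ^ u * (xq ^ n * xq ^ ρ) := by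
  have e1 : (2 : ℝ) ^ n = (2 : ℝ) ^ (n : ℝ) := (Real.rpow_natCast 2 n).symm
  have e2 : (2 : ℝ) ^ (-(ρ : ℤ)) = (2 : ℝ) ^ (-(ρ : ℝ)) := by
    rw [← Real.rpow_intCast]; push_cast; rfl
  have e3 : (2 : ℝ) ^ u = (2 : ℝ) ^ (u : ℝ) := (Real.rpow_natCast 2 u).symm
  have e4 : ∀ m : ℕ, xq ^ m = (2 : ℝ) ^ (-(1 / 100) * (m : ℝ)) := by
    intro m
    unfold xq
    rw [← Real.rpow_mul_natCast (by norm_num)]
  unfold Pool.Agent.Helper61.P3.mt
  rw [e1, e2, e3, e4, e4]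
  have h2 : (0 : ℝ) < 2 := by norm_num
  calc (2 : ℝ) ^ (n : ℝ) * ((2 : ℝ) ^ (-(ρ : ℝ)) *
      (V / 22000 * (2 : ℝ) ^ ((u : ℝ) + ρ - n - ((n : ℝ) + ρ) / 100)))
      = V / 22000 * ((2 : ℝ) ^ (n : ℝ) * (2 : ℝ) ^ (-(ρ : ℝ)) *
        (2 : ℝ) ^ ((u : ℝ) + ρ - n - ((n : ℝ) + ρ) / 100)) := by ring
    _ = V / 22000 * ((2 : ℝ) ^ (u : ℝ) * ((2 : ℝ) ^ (-(1 / 100) * (n : ℝ)) *
        (2 : ℝ) ^ (-(1 / 100) * (ρ : ℝ)))) := by
        rw [← Real.rpow_add h2, ← Real.rpow_add h2, ← Real.rpow_add h2, ← Real.rpow_add h2]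
        congr 2
        ring
    _ = _ := by ring

theorem hTYP (hYB : Pool.Agent.Helper20.RG.StYB) (hGDL : Pool.Agent.Helper20.EQ.StGDL) :
    Pool.Agent.Helper61.P3.StTYP := by
  classical
  intro φ τ c hG V u k l f x hV hBB hf0 hle
  by_contra hcon
  push Not at hcon
  have hx0 := xq_pos
  have hx1 := xq_lt
  have hz : ∀ j n : ℕ, |Zc c φ τ u 0 k j (lev f (l - 1 + n)) x| ≤ 1 := by
    intro j n
    obtain ⟨hg1, hg2⟩ := hGDL.1 f (l - 1 + n) hBB hf0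
    have hs : |sl τ u j| ≤ 1 := hG.1 _
    have hℓ : (0 : ℝ) < (2 : ℝ) ^ 0 := by norm_num
    obtain ⟨-, -, a1, a2, -⟩ := hYB (sl τ u j) (ce c φ u j) (mm τ u j) ((2 : ℝ) ^ 0) k _ hs hℓ hg1
    obtain ⟨-, -, b1, b2, -⟩ := hYB (sl τ u j) (ce c φ u j) (mp τ u j) ((2 : ℝ) ^ 0) k _ hs hℓ hg1
    have c1 := a1 (fun y => (hg2 y).1) x
    have c2 := a2 1 (fun y => (hg2 y).2) x
    have c3 := b1 (fun y => (hg2 y).1) x
    have c4 := b2 1 (fun y => (hg2 y).2) x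
    unfold Zc Z
    rw [abs_le]
    constructor <;> linarith
  set T : ℕ → ℕ → ℕ → ℝ≥0∞ := fun j n ρ => if 10000 * n < u then
    ENNReal.ofReal ((2 : ℝ) ^ n) * (if (2 : ℝ) ^ (-((ρ : ℤ) + 1)) ≤
      |Zc c φ τ u 0 k j (lev f (l - 1 + n)) x| then ENNReal.ofReal ((2 : ℝ) ^ (-(ρ : ℤ))) else 0)
    else 0 with hT
  have h1 : HtM c φ τ 10000 u k l f x ≤ ENNReal.ofReal (1 / (2 : ℝ) ^ u) *
      ∑ j ∈ Finset.range (2 ^ u), ∑' n : ℕ, ∑' ρ : ℕ, T j n ρ := by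
    unfold HtM
    refine mul_le_mul_right ?_ _
    refine Finset.sum_le_sum fun j _ => ENNReal.tsum_le_tsum fun n => ?_
    by_cases hn : 10000 * n < u
    · rw [if_pos hn]
      have e : ∀ ρ : ℕ, T j n ρ = ENNReal.ofReal ((2 : ℝ) ^ n) *
          (if (2 : ℝ) ^ (-((ρ : ℤ) + 1)) ≤ |Zc c φ τ u 0 k j (lev f (l - 1 + n)) x| then
            ENNReal.ofReal ((2 : ℝ) ^ (-(ρ : ℤ))) else 0) := fun ρ => by
        rw [hT]; exact if_pos hn
      rw [tsum_congr e, ENNReal.tsum_mul_left]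
      exact mul_le_mul_right (le_tsum_levels (hz j n)) _
    · rw [if_neg hn]; exact zero_le
  have h2 : ∑ j ∈ Finset.range (2 ^ u), ∑' n : ℕ, ∑' ρ : ℕ, T j n ρ =
      ∑' n : ℕ, ∑' ρ : ℕ, ∑ j ∈ Finset.range (2 ^ u), T j n ρ := by
    rw [← Summable.tsum_finsetSum fun _ _ => ENNReal.summable]
    congr 1
    funext n
    rw [← Summable.tsum_finsetSum fun _ _ => ENNReal.summable]
  have h3 : ∀ n ρ : ℕ, ∑ j ∈ Finset.range (2 ^ u), T j n ρ ≤
      ENNReal.ofReal (V / 22000 * 2 ^ u) * (ENNReal.ofReal (xq ^ n) * ENNReal.ofReal (xq ^ ρ)) := by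
    intro n ρ
    by_cases hn : 10000 * n < u
    · have hlt : ((Hh c φ τ u ρ k (lev f (l - 1 + n)) x).ncard : ℝ) < mt V u n ρ := by
        by_contra hc
        exact hcon n ρ ⟨hn, not_lt.mp hc⟩
      unfold Hh at hlt
      rw [ncard_range (2 ^ u) (fun j => (2 : ℝ) ^ (-((ρ : ℤ) + 1)) ≤
        |Zc c φ τ u 0 k j (lev f (l - 1 + n)) x|)] at hlt
      have e : ∑ j ∈ Finset.range (2 ^ u), T j n ρ = ENNReal.ofReal ((2 : ℝ) ^ n) *
          (((Finset.range (2 ^ u)).filter (fun j => (2 : ℝ) ^ (-((ρ : ℤ) + 1)) ≤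
            |Zc c φ τ u 0 k j (lev f (l - 1 + n)) x|)).card *
              ENNReal.ofReal ((2 : ℝ) ^ (-(ρ : ℤ)))) := by
        simp only [hT, if_pos hn]
        rw [← Finset.mul_sum, ← Finset.sum_filter, Finset.sum_const, nsmul_eq_mul]
      rw [e, ← ENNReal.ofReal_natCast, ← ENNReal.ofReal_mul (by positivity),
        ← ENNReal.ofReal_mul (by positivity), ← ENNReal.ofReal_mul (by positivity),
        ← ENNReal.ofReal_mul (by positivity), ← num_id]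
      apply ENNReal.ofReal_le_ofReal
      apply mul_le_mul_of_nonneg_left _ (by positivity)
      rw [mul_comm ((2 : ℝ) ^ (-(ρ : ℤ)))]
      exact mul_le_mul_of_nonneg_right hlt.le (by positivity)
    · have e : ∑ j ∈ Finset.range (2 ^ u), T j n ρ = 0 := by
        simp only [hT, if_neg hn]
        exact Finset.sum_const_zero
      rw [e]; exact zero_le
  have h4 : ∑' n : ℕ, ∑' ρ : ℕ, ∑ j ∈ Finset.range (2 ^ u), T j n ρ ≤
      ENNReal.ofReal (V / 22000 * 2 ^ u) *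
        (ENNReal.ofReal ((1 - xq)⁻¹) * ENNReal.ofReal ((1 - xq)⁻¹)) := by
    refine (ENNReal.tsum_le_tsum fun n => ENNReal.tsum_le_tsum fun ρ => h3 n ρ).trans ?_
    apply le_of_eq
    rw [← tsum_geo hx0.le hx1, ← ENNReal.tsum_mul_left]
    simp_rw [ENNReal.tsum_mul_left, ENNReal.tsum_mul_right]
  have h5 := h1.trans ((h2 ▸ mul_le_mul_right h4 (ENNReal.ofReal (1 / (2 : ℝ) ^ u))))
  have hi0 : 0 ≤ (1 - xq)⁻¹ := inv_nonneg.mpr (by linarith)
  rw [← ENNReal.ofReal_mul hi0, ← ENNReal.ofReal_mul (by positivity),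
    ← ENNReal.ofReal_mul (by positivity)] at h5
  have h6 := hle.trans h5
  rw [ENNReal.ofReal_le_ofReal_iff (by positivity)] at h6
  have e : 1 / (2 : ℝ) ^ u * (V / 22000 * 2 ^ u * ((1 - xq)⁻¹ * (1 - xq)⁻¹)) =
      V / 22000 * ((1 - xq)⁻¹ * (1 - xq)⁻¹) := by
    field_simp
  rw [e] at h6
  have h7 : (1 - xq)⁻¹ * (1 - xq)⁻¹ ≤ 148 * 148 := mul_le_mul inv_le inv_le hi0 (by norm_num)
  nlinarith

end Pool.Agent.Helper67.P3
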